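import Pool.Agent.MP_29bdbb_an.Spec

/-! The asymptotic length of the threaded path. -/

namespace Pool.Agent.MP_29bdbb_an

open Finset Filter Topology

open Classical

namespace ASYx

theorem up_bd (p x : ℕ) (hp : 0 < p) : (x : ℝ) ≤ p * up p x ∧ (p : ℝ) * up p x ≤ x + p := by
  have h1 := Nat.div_add_mod (x + p - 1) p
  have h2 := Nat.mod_lt (x + p - 1) hp
  have a1 : x ≤ p * up p x := by unfold up; omega
  have a2 : p * up p x ≤ x + p := by unfold up; omega
  exact ⟨by exact_mod_cast a1, by exact_mod_cast a2⟩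

theorem cnt_bd (d p j κ : ℕ) (hp : 0 < p) : |(p : ℝ) * cnt d p j κ - (d : ℝ) ^ j| ≤ p := by
  have hm : up p (d ^ j * κ) ≤ up p (d ^ j * (κ + 1)) := by
    unfold up
    refine Nat.div_le_div_right ?_
    have : d ^ j * κ ≤ d ^ j * (κ + 1) := Nat.mul_le_mul_left _ (Nat.le_succ _)
    omega
  obtain ⟨a1, a2⟩ := up_bd p (d ^ j * κ) hp
  obtain ⟨b1, b2⟩ := up_bd p (d ^ j * (κ + 1)) hp
  rw [cnt, Nat.cast_sub hm, abs_le]
  push_cast at a1 a2 b1 b2
  constructor <;> nlinarith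

theorem sum_bd (d p n κ : ℕ) (hp : 0 < p) :
    |(p : ℝ) * (∑ j ∈ range n, cnt d p j κ : ℕ) - ∑ j ∈ range n, (d : ℝ) ^ j| ≤ p * n := by
  push_cast
  rw [mul_sum, ← sum_sub_distrib]
  refine (abs_sum_le_sum_abs _ _).trans ?_
  refine (sum_le_sum fun j _ => cnt_bd d p j κ hp).trans ?_
  simp [mul_comm]

theorem main_bd (d p r a κ n : ℕ) (hd : 2 ≤ d) (hp : 0 < p) (h : a + p * (d - 1) = d ^ r) :
    |(p : ℝ) * ex d p a n κ - ∑ j ∈ range (n + 1 + r), (d : ℝ) ^ j| ≤
      (1 + a) + a * (p * (n + 1)) := by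
  have hd' : (2 : ℝ) ≤ d := by exact_mod_cast hd
  have h' : (a : ℝ) + p * (d - 1) = d ^ r := by
    have := congrArg (Nat.cast : ℕ → ℝ) h
    push_cast [Nat.cast_sub (show 1 ≤ d by omega)] at this
    exact this
  have g1 := mul_geom_sum (d : ℝ) (n + 1)
  have g2 := mul_geom_sum (d : ℝ) (n + 1 + r)
  have s := sum_bd d p (n + 1) κ hp
  set G1 := ∑ j ∈ range (n + 1), (d : ℝ) ^ j
  set G2 := ∑ j ∈ range (n + 1 + r), (d : ℝ) ^ j
  set S : ℝ := ((∑ j ∈ range (n + 1), cnt d p j κ : ℕ) : ℝ) with hS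
  have e : (ex d p a n κ : ℝ) = (d : ℝ) ^ (n + 1) + a * S := by
    rw [ex, hS, Nat.cast_add, Nat.cast_mul, Nat.cast_pow]
  set c : ℝ := p * (d : ℝ) ^ (n + 1) + a * G1 - G2 with hc
  have k : ((d : ℝ) - 1) * c = 1 - a := by
    rw [pow_add (d : ℝ) (n + 1) r, ← h'] at g2
    rw [hc]
    linear_combination a * g1 - g2
  have ha : (0 : ℝ) ≤ a := Nat.cast_nonneg a
  have k2 : |c| ≤ 1 + a := by
    have k3 : ((d : ℝ) - 1) * |c| ≤ 1 + a := by
      rw [← abs_of_nonneg (show (0 : ℝ) ≤ d - 1 by linarith), ← abs_mul, k, abs_le]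
      constructor <;> linarith
    nlinarith [abs_nonneg c]
  have e2 : (p : ℝ) * ex d p a n κ - G2 = c + a * (p * S - G1) := by rw [e, hc]; ring
  rw [e2]
  refine (abs_add_le _ _).trans (add_le_add k2 ?_)
  rw [abs_mul, abs_of_nonneg ha]
  refine mul_le_mul_of_nonneg_left ?_ ha
  simpa using s

end ASYx

theorem asy : S_ASY := by
  intro d p r a κ hd hp h
  have hd' : (2 : ℝ) ≤ d := by exact_mod_cast hd
  have hp' : (1 : ℝ) ≤ p := by exact_mod_cast hp
  have ha : (0 : ℝ) ≤ a := Nat.cast_nonneg a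
  have t1 := tendsto_pow_const_div_const_pow_of_one_lt 1 (show (1 : ℝ) < 2 by norm_num)
  have t0 := tendsto_pow_const_div_const_pow_of_one_lt 0 (show (1 : ℝ) < 2 by norm_num)
  have t := (t0.const_mul (1 + 2 * (a : ℝ))).add (t1.const_mul (a : ℝ))
  simp only [mul_zero, add_zero, pow_zero, pow_one] at t
  rw [tendsto_iff_dist_tendsto_zero]
  refine squeeze_zero (fun _ => dist_nonneg) (fun n => ?_) t
  have b := ASYx.main_bd d p r a κ n hd hp h
  push_cast
  set G := ∑ j ∈ range (n + 1 + r), (d : ℝ) ^ j with hG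
  have hG1 : (2 : ℝ) ^ n ≤ G := by
    refine (pow_le_pow_left₀ (by norm_num) hd' n).trans ?_
    exact single_le_sum (f := fun j => (d : ℝ) ^ j) (fun j _ => by positivity)
      (mem_range.2 (by omega))
  have h2 : (0 : ℝ) < 2 ^ n := by positivity
  have hG0 : 0 < G := by linarith
  have e : (ex d p a n κ : ℝ) / G - 1 / p = (p * ex d p a n κ - G) / (p * G) := by
    field_simp
  have hn : (0 : ℝ) ≤ n := Nat.cast_nonneg n
  rw [Real.dist_eq, e, abs_div, abs_of_pos (show (0 : ℝ) < p * G by positivity)]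
  have e3 : (1 + 2 * (a : ℝ)) * (1 / 2 ^ n) + a * (n / 2 ^ n) =
      (p * (1 + 2 * a + a * n)) / (p * 2 ^ n) := by
    field_simp
  rw [e3]
  refine div_le_div₀ (by positivity) (b.trans ?_) (by positivity)
    (mul_le_mul_of_nonneg_left hG1 (by positivity))
  nlinarith

end Pool.Agent.MP_29bdbb_an
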