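import Pool.Agent.MP_29bdbb_an.Spec

/-! A positive block with the same spectral radius. -/

namespace Pool.Agent.MP_29bdbb_an

open Finset Filter Topology

noncomputable section

open Classical

namespace BLKx

theorem rad_eq {A : Type} [Ring A] [Algebra ℂ A] {a : A} {z : ℂ} (hz : z ∈ spectrum ℂ a)
    (h : ∀ w ∈ spectrum ℂ a, ‖w‖₊ ≤ ‖z‖₊) : spectralRadius ℂ a = ‖z‖₊ := by
  unfold spectralRadius
  refine le_antisymm (iSup₂_le fun w hw => ENNReal.coe_le_coe.2 (h w hw)) ?_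
  exact le_iSup₂ (f := fun (k : ℂ) (_ : k ∈ spectrum ℂ a) => (‖k‖₊ : ENNReal)) z hz

theorem block {σ α : Type} [Fintype σ] [DecidableEq σ] [LinearOrder α] (B : Matrix σ σ ℕ)
    (b : σ → α) (hb : ∀ i j, B i j ≠ 0 → b i ≤ b j) (h0 : 0 < sr B) :
    ∃ K : Finset σ, K.Nonempty ∧ (∀ i ∈ K, ∀ j ∈ K, b i = b j) ∧
      sr (B.submatrix (Subtype.val : K → σ) Subtype.val) = sr B := by
  have ht : (B.map (Nat.cast : ℕ → ℂ)).BlockTriangular b := fun i j h => by
    have h1 : B i j = 0 := by_contra fun h1 => absurd (hb i j h1) (not_le.2 h)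
    rw [Matrix.map_apply, h1, Nat.cast_zero]
  have hne : (spectrum ℂ (B.map (Nat.cast : ℕ → ℂ))).Nonempty := by
    by_contra h
    rw [Set.not_nonempty_iff_eq_empty] at h
    unfold sr spectralRadius at h0
    rw [h] at h0
    simp at h0
  obtain ⟨z, hz, hm⟩ := Set.exists_max_image _ (fun w : ℂ => ‖w‖₊) (Matrix.finite_spectrum _) hne
  have hroot : ∀ w : ℂ, w ∈ spectrum ℂ (B.map (Nat.cast : ℕ → ℂ)) ↔ ∃ a ∈ image b univ,
      ((B.map (Nat.cast : ℕ → ℂ)).toSquareBlock b a).charpoly.IsRoot w := fun w => by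
    rw [Matrix.mem_spectrum_iff_isRoot_charpoly, ht.charpoly, Polynomial.IsRoot.def,
      Polynomial.eval_prod, Finset.prod_eq_zero_iff]
    rfl
  obtain ⟨a, ha, hza⟩ := (hroot z).1 hz
  obtain ⟨i0, -, hi0⟩ := Finset.mem_image.1 ha
  have hK : ∀ i, b i = a ↔ i ∈ univ.filter fun i => b i = a := fun i => by simp
  have hc : ((B.submatrix (Subtype.val : (univ.filter fun i => b i = a) → σ) Subtype.val).map
      (Nat.cast : ℕ → ℂ)).charpoly = ((B.map (Nat.cast : ℕ → ℂ)).toSquareBlock b a).charpoly :=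
    Matrix.charpoly_reindex (Equiv.subtypeEquivRight hK)
      ((B.map (Nat.cast : ℕ → ℂ)).toSquareBlock b a)
  refine ⟨univ.filter fun i => b i = a, ⟨i0, (hK i0).1 hi0⟩,
    fun i hi j hj => ((hK i).2 hi).trans ((hK j).2 hj).symm, ?_⟩
  unfold sr
  rw [rad_eq hz hm, rad_eq (z := z)]
  · rw [Matrix.mem_spectrum_iff_isRoot_charpoly, hc]
    exact hza
  · intro w hw
    rw [Matrix.mem_spectrum_iff_isRoot_charpoly, hc] at hw
    exact hm w ((hroot w).2 ⟨a, ha, hw⟩)

end BLKx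

theorem blkS : S_BLK := by
  intro σ _ _ B hB h0
  obtain ⟨K, h1, h2, h3⟩ := BLKx.block B
    (fun i => toLinearExtension (OrderDual.toDual {j | j = i ∨ B i j ≠ 0})) (fun i j h =>
      toLinearExtension.monotone (OrderDual.toDual_le_toDual.2 fun k hk => by
        rcases hk with rfl | hk
        · exact Or.inr h
        · exact Or.inr (hB i j k h hk))) h0
  have h4 : ∀ i ∈ K, ∀ j ∈ K, i ≠ j → B i j ≠ 0 := fun i hi j hj hij => by
    have a1 : {k | k = i ∨ B i k ≠ 0} = {k | k = j ∨ B j k ≠ 0} := h2 i hi j hj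
    have a2 : j ∈ {k | k = i ∨ B i k ≠ 0} := a1 ▸ Or.inl rfl
    exact a2.resolve_left hij.symm
  refine ⟨K, h1, fun i hi j hj => Nat.pos_of_ne_zero ?_, h3⟩
  by_cases hij : i = j
  swap
  · exact h4 i hi j hj hij
  subst hij
  intro hz
  have h5 : ∀ k ∈ K, k = i := fun k hk => by_contra fun h =>
    hB i k i (h4 i hi k hk (Ne.symm h)) (h4 k hk i hi h) hz
  have h6 : (B.submatrix (Subtype.val : K → σ) (Subtype.val : K → σ)).map
      (Nat.cast : ℕ → ℂ) = 0 := by
    ext k l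
    rw [Matrix.map_apply, Matrix.submatrix_apply, h5 k k.2, h5 l l.2, hz, Nat.cast_zero,
      Matrix.zero_apply]
  rw [← h3] at h0
  unfold sr at h0
  rw [h6, spectrum.spectralRadius_zero] at h0
  simp at h0

end

end Pool.Agent.MP_29bdbb_an
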