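import Pool.Agent.MP_29bdbb_an.Spec

/-! The number of nodes of depth less than `n` in the `d`-ary tree. -/

namespace Pool.Agent.MP_29bdbb_an

open Finset Filter Topology

open Classical

namespace CARDx

/-- a node is a depth together with a word of that length -/
def eqv (d n : ℕ) : Del d n ≃ Σ j : Fin n, List.Vector (Fin d) j where
  toFun w := ⟨⟨w.1.length, w.2⟩, ⟨w.1, rfl⟩⟩
  invFun x := ⟨x.2.1, by rw [x.2.2]; exact x.1.2⟩
  left_inv _ := rfl
  right_inv := by
    rintro ⟨⟨j, hj⟩, ⟨l, hl⟩⟩
    obtain rfl : l.length = j := hl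
    rfl

end CARDx

theorem cardS : S_CARD := by
  intro d n
  rw [Nat.card_congr (CARDx.eqv d n), Nat.card_eq_fintype_card, Fintype.card_sigma,
    ← Fin.sum_univ_eq_sum_range (fun j => d ^ j) n]
  refine Finset.sum_congr rfl fun j _ => ?_
  rw [card_vector, Fintype.card_fin]

end Pool.Agent.MP_29bdbb_an
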