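import Pool.Agent.MP_29bdbb_an.Spec

/-! The recursion for the number of blocks with a given root label. -/

namespace Pool.Agent.MP_29bdbb_an

open Finset Filter Topology

noncomputable section

open Classical

namespace CNTx

variable {d : ℕ} {Λ : Type} [Fintype Λ] (Ok : Λ → (Fin d → Λ) → Prop)

/-- the blocks with a given root label -/
def FS (n : ℕ) (l : Λ) : Finset (Del d n → Λ) :=
  (Set.toFinite {b : Del d n → Λ | ∃ u ∈ YY Ok, u [] = l ∧ b = blk n u []}).toFinset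

theorem mem_FS {n : ℕ} {l : Λ} {b : Del d n → Λ} :
    b ∈ FS Ok n l ↔ ∃ u ∈ YY Ok, u [] = l ∧ b = blk n u [] := by
  simp [FS]

theorem NN_eq (n : ℕ) (l : Λ) : NN Ok n l = (FS Ok n l).card := Set.ncard_eq_toFinset_card _ _

/-- a tree from a root label and subtrees -/
def glue (l : Λ) (U : Fin d → List (Fin d) → Λ) : List (Fin d) → Λ
  | [] => l
  | i :: w => U i w

omit [Fintype Λ] in
theorem one (h : ∀ l, ∃ c, Ok l c) (l : Λ) : NN Ok 1 l = 1 := by
  choose ch hch using h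
  rw [NN, Set.ncard_eq_one]
  refine ⟨fun _ => l, Set.eq_singleton_iff_unique_mem.2 ⟨⟨fun v => v.foldl (fun l i => ch l i) l,
    fun v => ?_, rfl, ?_⟩, ?_⟩⟩
  · simpa [List.foldl_append] using hch _
  · funext w
    obtain ⟨w, hw⟩ := w
    obtain rfl : w = [] := List.length_eq_zero_iff.1 (by omega)
    rfl
  · rintro b ⟨u, -, rfl, rfl⟩
    funext w
    obtain ⟨w, hw⟩ := w
    obtain rfl : w = [] := List.length_eq_zero_iff.1 (by omega)
    rfl

theorem step (n : ℕ) (l : Λ) :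
    NN Ok (n + 2) l = ∑ c ∈ univ.filter (Ok l), ∏ i, NN Ok (n + 1) (c i) := by
  simp only [NN_eq, ← Fintype.card_piFinset]
  rw [← Finset.card_sigma]
  refine Finset.card_bij (fun b _ => ⟨fun i => b ⟨[i], by simp⟩,
    fun i w => b ⟨i :: w.1, Nat.succ_lt_succ w.2⟩⟩) ?_ ?_ ?_
  · intro b hb
    obtain ⟨u, hu, rfl, rfl⟩ := (mem_FS Ok).1 hb
    refine Finset.mem_sigma.2 ⟨Finset.mem_filter.2 ⟨mem_univ _, hu []⟩,
      Fintype.mem_piFinset.2 fun i => (mem_FS Ok).2 ⟨fun w => u (i :: w), fun v => hu (i :: v),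
        rfl, rfl⟩⟩
  · intro b hb b' hb' e
    obtain ⟨u, -, e1, rfl⟩ := (mem_FS Ok).1 hb
    obtain ⟨u', -, e2, rfl⟩ := (mem_FS Ok).1 hb'
    have e3 := congrArg (fun z : (Σ _ : Fin d → Λ, Fin d → Del d (n + 1) → Λ) =>
      (z.2 : Fin d → Del d (n + 1) → Λ)) e
    funext w
    obtain ⟨w, hw⟩ := w
    cases w with
    | nil => exact e1.trans e2.symm
    | cons i w => exact congrFun (congrFun e3 i) ⟨w, Nat.lt_of_succ_lt_succ hw⟩
  · rintro ⟨c, β⟩ hz
    obtain ⟨h1, h2⟩ := Finset.mem_sigma.1 hz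
    choose U hU e1 e2 using fun i => (mem_FS Ok).1 (Fintype.mem_piFinset.1 h2 i)
    obtain rfl : (fun i => U i []) = c := funext e1
    obtain rfl : β = fun i => blk (n + 1) (U i) [] := funext e2
    refine ⟨blk (n + 2) (glue l U) [], (mem_FS Ok).2 ⟨glue l U, fun v => ?_, rfl, rfl⟩, rfl⟩
    cases v with
    | nil => exact (Finset.mem_filter.1 h1).2
    | cons i v => exact hU i v

theorem total (n : ℕ) : NT Ok (n + 1) = ∑ l, NN Ok (n + 1) l := by
  rw [NT, Set.ncard_eq_toFinset_card _ (Set.toFinite _),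
    Finset.card_eq_sum_card_fiberwise (f := fun b : Del d (n + 1) → Λ => b ⟨[], by simp⟩)
      (t := univ) fun _ _ => mem_univ _]
  refine Finset.sum_congr rfl fun l _ => ?_
  rw [NN_eq]
  congr 1
  ext b
  rw [mem_FS, Finset.mem_filter, Set.Finite.mem_toFinset]
  constructor
  · rintro ⟨⟨u, hu, rfl⟩, e⟩
    exact ⟨u, hu, e, rfl⟩
  · rintro ⟨u, hu, e, rfl⟩
    exact ⟨⟨u, hu, rfl⟩, e⟩

end CNTx

theorem cntS : S_CNT := fun _ _ _ Ok h => ⟨CNTx.one Ok h, CNTx.step Ok, CNTx.total Ok⟩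

end

end Pool.Agent.MP_29bdbb_an
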