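import Pool.Agent.MP_29bdbb_an.Spec

/-! Delaying a rule along a fixed direction of the tree. -/

namespace Pool.Agent.MP_29bdbb_an

open Finset Filter Topology

open Classical

namespace DLYx

variable {d : ℕ} {Λ : Type}

lemma tri {A : Type} (z : A) (r : ℕ) (w : List A) : (∃ x, w = x ++ List.replicate r z) ∨
    (∃ j < r, w = List.replicate j z) ∨
    ∃ x i j, i ≠ z ∧ j < r ∧ w = x ++ i :: List.replicate j z := by
  induction w with
  | nil =>
    rcases Nat.eq_zero_or_pos r with rfl | h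
    · exact Or.inl ⟨[], rfl⟩
    · exact Or.inr (Or.inl ⟨0, h, rfl⟩)
  | cons a w ih =>
    rcases ih with ⟨x, rfl⟩ | ⟨j, hj, rfl⟩ | ⟨x, i, j, h1, h2, rfl⟩
    · exact Or.inl ⟨a :: x, rfl⟩
    · by_cases e : a = z
      · subst e
        by_cases e' : j + 1 < r
        · exact Or.inr (Or.inl ⟨j + 1, e', rfl⟩)
        · obtain rfl : r = j + 1 := by omega
          exact Or.inl ⟨[], rfl⟩
      · exact Or.inr (Or.inr ⟨[], a, j, e, hj, rfl⟩)
    · exact Or.inr (Or.inr ⟨a :: x, i, j, h1, h2, rfl⟩)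

lemma ne {A : Type} {z i : A} {r j : ℕ} (hi : i ≠ z) (hj : j < r) (v w : List A) :
    v ++ i :: List.replicate j z ≠ w ++ List.replicate r z := by
  intro e
  obtain ⟨k, rfl⟩ : ∃ k, r = k + (j + 1) := ⟨r - (j + 1), by omega⟩
  rw [List.replicate_add, ← List.append_assoc, List.replicate_succ] at e
  exact hi (List.cons.inj (List.append_inj_right' e (by simp))).1

/-- The forbidden blocks. -/
def FF (z : Fin d) (l0 : Λ) (r : ℕ) (Ok : Λ → (Fin d → Λ) → Prop) : Set (Del d (r + 2) → Λ) :=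
  {b | ¬ ((∀ i, i ≠ z → ∀ j (hj : j < r), b ⟨i :: List.replicate j z, by simp; omega⟩ = l0) ∧
    Ok (b ⟨List.replicate r z, by simp⟩) fun i => b ⟨i :: List.replicate r z, by simp⟩)}

lemma mem {z : Fin d} {l0 : Λ} {r : ℕ} {Ok : Λ → (Fin d → Λ) → Prop} {t : List (Fin d) → Λ} :
    t ∈ TS (FF z l0 r Ok) ↔ ∀ v, (∀ i, i ≠ z → ∀ j < r, t (v ++ i :: List.replicate j z) = l0) ∧
      Ok (t (v ++ List.replicate r z)) fun i => t (v ++ i :: List.replicate r z) :=
  forall_congr' fun _ => not_not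

/-- The decoded block. -/
def dec (z : Fin d) (r n : ℕ) (b : Del d (n + r) → Λ) : Del d n → Λ :=
  fun w => b ⟨w.1 ++ List.replicate r z, by have := w.2; simp; omega⟩

/-- The labels along the fixed direction. -/
def spine (z : Fin d) (r n : ℕ) (b : Del d (n + r) → Λ) : Fin r → Λ :=
  fun j => b ⟨List.replicate j z, by have := j.2; simp; omega⟩

end DLYx

open DLYx in
theorem dly : S_DLY := by
  intro d r Λ _ hΛ Ok hd
  obtain ⟨l0⟩ := hΛ
  obtain ⟨z, -⟩ : ∃ z : Fin d, True := ⟨⟨0, hd⟩, trivial⟩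
  refine ⟨FF z l0 r Ok, fun n => ⟨?_, ?_⟩⟩
  · refine le_trans (Set.ncard_le_ncard ?_ (Set.toFinite _))
      (Set.ncard_image_le (f := dec z r n) (Set.toFinite _))
    rintro b ⟨u, hu, rfl⟩
    obtain ⟨t, t1, t2⟩ : ∃ t : List (Fin d) → Λ, (∀ w, t (w ++ List.replicate r z) = u w) ∧
        ∀ x, (∀ w, x ≠ w ++ List.replicate r z) → t x = l0 := by
      refine ⟨fun x => if h : ∃ w, x = w ++ List.replicate r z then u h.choose else l0,
        fun w => ?_, fun x hx => dif_neg fun ⟨w, e⟩ => hx w e⟩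
      have h : ∃ w', w ++ List.replicate r z = w' ++ List.replicate r z := ⟨w, rfl⟩
      beta_reduce
      rw [dif_pos h, ← List.append_cancel_right h.choose_spec]
    refine ⟨blk (n + r) t [], ⟨t, mem.2 fun v => ⟨fun i hi j hj => t2 _ (ne hi hj v), ?_⟩, [], rfl⟩,
      funext fun w => t1 w.1⟩
    have e : (fun i => t (v ++ i :: List.replicate r z)) = fun i => u (v ++ [i]) :=
      funext fun i => by rw [← t1, List.append_assoc, List.singleton_append]
    rw [t1, e]
    exact hu v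
  · have c : (Set.univ ×ˢ {b : Del d n → Λ | ∃ u ∈ YY Ok, b = blk n u []} :
        Set ((Fin r → Λ) × (Del d n → Λ))).ncard = Fintype.card Λ ^ r * NT Ok n := by
      rw [Set.ncard_prod, Set.ncard_univ, Nat.card_eq_fintype_card, Fintype.card_fun,
        Fintype.card_fin, NT]
    rw [← c]
    refine Set.ncard_le_ncard_of_injOn (fun b => (spine z r n b, dec z r n b)) ?_ ?_ (Set.toFinite _)
    · rintro b ⟨t, ht, v, rfl⟩
      refine ⟨trivial, fun w => t (v ++ (w ++ List.replicate r z)), fun w => ?_, rfl⟩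
      have e := (mem.1 ht (v ++ w)).2
      simpa only [List.append_assoc, List.singleton_append] using e
    · rintro b ⟨t, ht, v, rfl⟩ b' ⟨t', ht', v', rfl⟩ e
      obtain ⟨e1, e2⟩ := Prod.ext_iff.1 e
      funext ⟨w, hw⟩
      rcases tri z r w with ⟨x, rfl⟩ | ⟨j, hj, rfl⟩ | ⟨x, i, j, h1, h2, rfl⟩
      · exact congrFun e2 ⟨x, by simp at hw; omega⟩
      · exact congrFun e1 ⟨j, hj⟩
      · have a1 := (mem.1 ht (v ++ x)).1 i h1 j h2
        have a2 := (mem.1 ht' (v' ++ x)).1 i h1 j h2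
        rw [List.append_assoc] at a1 a2
        exact a1.trans a2.symm

end Pool.Agent.MP_29bdbb_an
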