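import Pool.Agent.MP_29bdbb_an.Spec

/-! The recursion for the length of the threaded path. -/

namespace Pool.Agent.MP_29bdbb_an

open Finset Filter Topology

open Classical

namespace EXx

theorem up_add {p : ℕ} (hp : 0 < p) (x z : ℕ) : up p (x + p * z) = up p x + z := by
  unfold up
  rw [show x + p * z + p - 1 = (x + p - 1) + p * z by omega, Nat.add_mul_div_left _ _ hp]

theorem up_mono (p : ℕ) : Monotone (up p) := fun x y h =>
  Nat.div_le_div_right (by omega)

theorem cnt_mod (d j y : ℕ) {p : ℕ} (hp : 0 < p) : cnt d p j (y % p) = cnt d p j y := by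
  unfold cnt
  have h := Nat.mod_add_div y p
  have h1 : d ^ j * (y + 1) = d ^ j * (y % p + 1) + p * (d ^ j * (y / p)) := by
    conv_lhs => rw [← h]
    ring
  have h2 : d ^ j * y = d ^ j * (y % p) + p * (d ^ j * (y / p)) := by
    conv_lhs => rw [← h]
    ring
  rw [h1, h2, up_add hp, up_add hp, Nat.add_sub_add_right]

theorem cnt_sum (d p j κ : ℕ) : ∑ i : Fin d, cnt d p j (d * κ + i) = cnt d p (j + 1) κ := by
  rw [Fin.sum_univ_eq_sum_range (fun i => cnt d p j (d * κ + i))]
  have hm : Monotone fun i => up p (d ^ j * (d * κ + i)) := fun x y h =>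
    up_mono p (Nat.mul_le_mul_left _ (by omega))
  have h := Finset.sum_range_tsub hm d
  unfold cnt
  rw [show d ^ (j + 1) * (κ + 1) = d ^ j * (d * κ + d) by ring,
    show d ^ (j + 1) * κ = d ^ j * (d * κ + 0) by ring, ← h]
  exact sum_congr rfl fun i _ => by rw [add_assoc]

end EXx

theorem exS : S_EX := by
  intro d p a κ _ hp
  refine ⟨by simp [ex, add_comm], fun n => ?_⟩
  unfold ex
  simp only [EXx.cnt_mod _ _ _ hp]
  rw [sum_add_distrib, ← mul_sum, sum_comm, sum_range_succ']
  simp only [EXx.cnt_sum, sum_const, card_univ, Fintype.card_fin, smul_eq_mul]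
  ring

end Pool.Agent.MP_29bdbb_an
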