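import Pool.Agent.MP_29bdbb_an.Spec

/-! The growth rate of the sum of the entries of the powers of a matrix. -/

namespace Pool.Agent.MP_29bdbb_an

open Finset Filter Topology

open Classical

namespace GELx

open Matrix.Norms.Operator

variable {σ : Type} [Fintype σ] [DecidableEq σ]

theorem row_le (C : Matrix σ σ ℕ) (s : σ) :
    ((∑ t, C s t : ℕ) : ℝ) ≤ ‖C.map (Nat.cast : ℕ → ℂ)‖ := by
  have := le_sup (f := fun i : σ => ∑ j, ‖C.map (Nat.cast : ℕ → ℂ) i j‖₊) (mem_univ s)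
  rw [← Matrix.linfty_opNNNorm_def] at this
  have := NNReal.coe_le_coe.2 this
  simpa using this

theorem le_tot (C : Matrix σ σ ℕ) : ‖C.map (Nat.cast : ℕ → ℂ)‖ ≤ tot C := by
  have : ‖C.map (Nat.cast : ℕ → ℂ)‖₊ ≤ tot C := by
    rw [Matrix.linfty_opNNNorm_def]
    refine Finset.sup_le fun s _ => ?_
    have : ∑ t, C s t ≤ tot C :=
      single_le_sum (f := fun s => ∑ t, C s t) (fun _ _ => Nat.zero_le _) (mem_univ s)
    simpa using (Nat.cast_le (α := NNReal)).2 this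
  exact_mod_cast this

theorem tot_le (C : Matrix σ σ ℕ) :
    (tot C : ℝ) ≤ Fintype.card σ * ‖C.map (Nat.cast : ℕ → ℂ)‖ := by
  rw [tot, Nat.cast_sum, ← nsmul_eq_mul, ← card_univ, ← sum_const]
  exact sum_le_sum fun s _ => row_le C s

theorem gelf (C : Matrix σ σ ℕ) [Nonempty σ] :
    Tendsto (fun k : ℕ => ‖(C ^ k).map (Nat.cast : ℕ → ℂ)‖ ^ (1 / k : ℝ)) atTop (𝓝 (sr C)) := by
  have a := spectrum.pow_norm_pow_one_div_tendsto_nhds_spectralRadius (C.map (Nat.cast : ℕ → ℂ))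
  have b : spectralRadius ℂ (C.map (Nat.cast : ℕ → ℂ)) ≠ ⊤ :=
    ne_top_of_le_ne_top ENNReal.coe_ne_top (spectrum.spectralRadius_le_nnnorm _)
  refine ((ENNReal.tendsto_toReal b).comp a).congr fun k => ?_
  rw [Function.comp, ENNReal.toReal_ofReal (by positivity)]
  congr 2
  exact (map_pow (Nat.castRingHom ℂ).mapMatrix C k).symm

theorem main (C : Matrix σ σ ℕ) (h : ∀ k, 1 ≤ tot (C ^ k)) : 1 ≤ sr C ∧
    Tendsto (fun k : ℕ => Real.log (tot (C ^ k)) / k) atTop (𝓝 (Real.log (sr C))) := by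
  have hne : Nonempty σ := by
    by_contra q
    have := not_nonempty_iff.1 q
    simpa [tot] using h 0
  have c0 : (0 : ℝ) < Fintype.card σ := by exact_mod_cast Fintype.card_pos
  have t1 : ∀ k, (1 : ℝ) ≤ tot (C ^ k) := fun k => by exact_mod_cast h k
  have n1 : ∀ k, 1 / (Fintype.card σ : ℝ) ≤ ‖(C ^ k).map (Nat.cast : ℕ → ℂ)‖ := fun k => by
    rw [div_le_iff₀' c0]
    exact (t1 k).trans (tot_le _)
  have n0 : ∀ k, 0 < ‖(C ^ k).map (Nat.cast : ℕ → ℂ)‖ := fun k =>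
    (one_div_pos.2 c0).trans_le (n1 k)
  have g := gelf C
  have l : Tendsto (fun k : ℕ => (1 / (Fintype.card σ : ℝ)) ^ (1 / k : ℝ)) atTop (𝓝 1) := by
    simpa using (tendsto_const_nhds (x := 1 / (Fintype.card σ : ℝ))).rpow
      (tendsto_one_div_atTop_nhds_zero_nat (𝕜 := ℝ)) (Or.inl (one_div_pos.2 c0).ne')
  have s1 : 1 ≤ sr C := le_of_tendsto_of_tendsto' l g fun k =>
    Real.rpow_le_rpow (one_div_pos.2 c0).le (n1 k) (by positivity)
  have g' : Tendsto (fun k : ℕ => Real.log ‖(C ^ k).map (Nat.cast : ℕ → ℂ)‖ / k) atTop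
      (𝓝 (Real.log (sr C))) := (g.log (by linarith)).congr fun k => by
    rw [Real.log_rpow (n0 k), one_div_mul_eq_div]
  have u := (tendsto_const_div_atTop_nhds_zero_nat (Real.log (Fintype.card σ))).add g'
  rw [zero_add] at u
  refine ⟨s1, tendsto_of_tendsto_of_tendsto_of_le_of_le g' u (fun k => ?_) fun k => ?_⟩
  · exact div_le_div_of_nonneg_right (Real.log_le_log (n0 k) (le_tot _)) k.cast_nonneg
  · rw [← add_div, ← Real.log_mul c0.ne' (n0 k).ne']
    exact div_le_div_of_nonneg_right (Real.log_le_log (one_pos.trans_le (t1 k)) (tot_le _))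
      k.cast_nonneg

end GELx

theorem gel : S_GEL := fun _ _ _ C h => GELx.main C h

end Pool.Agent.MP_29bdbb_an
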