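import Pool.Agent.MP_29bdbb_an.Spec

/-! A power of a matrix with natural entries has a transitive support. -/

namespace Pool.Agent.MP_29bdbb_an

open Finset Filter Topology

open Classical

namespace IDEMx

variable {σ : Type} [Fintype σ] [DecidableEq σ]

/-- the support of a power -/
def supp (A : Matrix σ σ ℕ) (k : ℕ) : σ → σ → Prop := fun i j => (A ^ k) i j ≠ 0

theorem supp_add (A : Matrix σ σ ℕ) (u v : ℕ) (i k : σ) :
    supp A (u + v) i k ↔ ∃ j, supp A u i j ∧ supp A v j k := by
  simp only [supp, pow_add, Matrix.mul_apply, Ne, Finset.sum_eq_zero_iff, mem_univ, true_imp_iff,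
    not_forall, mul_eq_zero, not_or]

theorem shift (A : Matrix σ σ ℕ) {u v : ℕ} (h : supp A u = supp A v) (w : ℕ) :
    supp A (u + w) = supp A (v + w) := by
  funext i k
  rw [supp_add, supp_add, h]

theorem per (A : Matrix σ σ ℕ) {u e : ℕ} (h : supp A u = supp A (u + e)) (c w : ℕ) :
    supp A (u + w + c * e) = supp A (u + w) := by
  induction c with
  | zero => simp
  | succ c ih =>
    rw [← ih, show u + w + (c + 1) * e = u + e + (w + c * e) by ring, ← shift A h,
      add_assoc]

theorem ex (A : Matrix σ σ ℕ) : ∃ u e, 0 < e ∧ supp A u = supp A (u + e) := by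
  obtain ⟨i, j, hij, h⟩ := Finite.exists_ne_map_eq_of_infinite (supp A)
  rcases lt_or_gt_of_ne hij with h1 | h1
  · exact ⟨i, j - i, by omega, by rw [h]; congr 1; omega⟩
  · exact ⟨j, i - j, by omega, by rw [← h]; congr 1; omega⟩

end IDEMx

theorem idem : S_IDEM := by
  intro σ _ _ A
  obtain ⟨u, e, he, h⟩ := IDEMx.ex A
  have hu : u ≤ (u + 1) * e := by nlinarith
  refine ⟨(u + 1) * e, by positivity, fun i j k hij hjk => ?_⟩
  have h1 := IDEMx.per A h (u + 1) ((u + 1) * e - u)
  rw [show u + ((u + 1) * e - u) = (u + 1) * e by omega] at h1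
  have h2 : IDEMx.supp A ((u + 1) * e + (u + 1) * e) i k :=
    (IDEMx.supp_add A _ _ i k).2 ⟨j, hij, hjk⟩
  rw [h1] at h2
  exact h2

end Pool.Agent.MP_29bdbb_an
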