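import Pool.Agent.MP_29bdbb_an.Spec

/-! From the exponents to the logarithm of the count. -/

namespace Pool.Agent.MP_29bdbb_an

open Finset Filter Topology

open Classical

namespace LIMx

theorem one {T D e : ℕ → ℕ} {L θ : ℝ} (hθ : 0 < θ)
    (hT : Tendsto (fun k : ℕ => Real.log (T k) / k) atTop (𝓝 L)) (hD : Tendsto D atTop atTop)
    (he : Tendsto (fun n => (e n : ℝ) / D n) atTop (𝓝 θ)) :
    Tendsto (fun n => Real.log (T (e n)) / D n) atTop (𝓝 (θ * L)) := by
  have hD' : Tendsto (fun n => (D n : ℝ)) atTop atTop := tendsto_natCast_atTop_atTop.comp hD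
  have a1 : Tendsto (fun n => (e n : ℝ)) atTop atTop := by
    refine (Tendsto.pos_mul_atTop hθ he hD').congr' ?_
    filter_upwards [hD'.eventually_gt_atTop 0] with n hn
    exact div_mul_cancel₀ _ hn.ne'
  have a2 : Tendsto e atTop atTop := tendsto_natCast_atTop_iff.1 a1
  refine (he.mul (hT.comp a2)).congr' ?_
  filter_upwards [a1.eventually_gt_atTop 0] with n hn
  simp only [Function.comp]
  rw [mul_comm, div_mul_div_cancel₀ hn.ne']

end LIMx

theorem limS : S_LIM := by
  intro p M T D b e L θ hp hM hθ h1 hT hD he hb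
  have hf := fun κ => LIMx.one (e := fun n => e n κ) hθ hT hD (he κ)
  have ne : (range p).Nonempty := ⟨0, mem_range.2 hp⟩
  have hD' : Tendsto (fun n => (D n : ℝ)) atTop atTop := tendsto_natCast_atTop_atTop.comp hD
  have a1 := Tendsto.finset_sup'_nhds_apply ne (g := fun _ => θ * L) fun κ _ => hf κ
  rw [sup'_const] at a1
  have a2 := (hD'.const_div_atTop (Real.log (M * p))).add a1
  rw [zero_add] at a2
  have lo : ∀ n, T (e n 0) ≤ b n := fun n =>
    (single_le_sum (f := fun κ => T (e n κ)) (fun _ _ => Nat.zero_le _) (mem_range.2 hp)).trans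
      (hb n).1
  have pT : ∀ k, (0 : ℝ) < T k := fun k => by exact_mod_cast h1 k
  refine tendsto_of_tendsto_of_tendsto_of_le_of_le (hf 0) a2 (fun n => ?_) fun n => ?_
  · exact div_le_div_of_nonneg_right (Real.log_le_log (pT _) (by exact_mod_cast lo n))
      (Nat.cast_nonneg _)
  · obtain ⟨κ, k1, k2⟩ := exists_max_image (range p) (fun κ => T (e n κ)) ne
    have c1 : b n ≤ M * p * T (e n κ) := by
      refine (hb n).2.trans ?_
      rw [mul_assoc]
      refine Nat.mul_le_mul_left _ ((sum_le_card_nsmul _ _ _ k2).trans ?_)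
      rw [card_range, smul_eq_mul]
    have c2 : (0 : ℝ) < M * p := by
      have : 0 < M * p := Nat.mul_pos hM hp
      exact_mod_cast this
    have c3 : Real.log (b n) ≤ Real.log (M * p) + Real.log (T (e n κ)) := by
      rw [← Real.log_mul c2.ne' (pT _).ne']
      exact Real.log_le_log ((pT _).trans_le (by exact_mod_cast lo n)) (by exact_mod_cast c1)
    refine (div_le_div_of_nonneg_right c3 (Nat.cast_nonneg _)).trans ?_
    rw [add_div]
    exact add_le_add le_rfl (le_sup' (fun κ => Real.log (T (e n κ)) / D n) k1)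

end Pool.Agent.MP_29bdbb_an
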