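import Pool.Agent.MP_29bdbb_an.Spec

/-! A positive block whose growth rate is a multiple of the entropy of the matrix shift. -/

namespace Pool.Agent.MP_29bdbb_an

open Finset Filter Topology

open Classical

namespace MATx

theorem le_tot {σ : Type} [Fintype σ] (C : Matrix σ σ ℕ) (s t : σ) : C s t ≤ tot C := by
  unfold tot
  calc C s t ≤ ∑ t', C s t' :=
        Finset.single_le_sum (f := fun t' => C s t') (fun _ _ => Nat.zero_le _) (mem_univ t)
    _ ≤ ∑ s', ∑ t', C s' t' :=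
        Finset.single_le_sum (f := fun s' => ∑ t', C s' t') (fun _ _ => Nat.zero_le _)
          (mem_univ s)

theorem path {σ : Type} [Fintype σ] [DecidableEq σ] (A : Matrix σ σ ℕ) (x : ℕ → σ)
    (hx : ∀ i, A (x i) (x (i + 1)) ≠ 0) (k : ℕ) : (A ^ k) (x 0) (x k) ≠ 0 := by
  induction k with
  | zero => simp
  | succ k ih =>
    rw [pow_succ, Matrix.mul_apply]
    have h : (A ^ k) (x 0) (x k) * A (x k) (x (k + 1)) ≤
        ∑ j, (A ^ k) (x 0) j * A j (x (k + 1)) :=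
      Finset.single_le_sum (f := fun j => (A ^ k) (x 0) j * A j (x (k + 1)))
        (fun _ _ => Nat.zero_le _) (mem_univ (x k))
    have h2 : (A ^ k) (x 0) (x k) * A (x k) (x (k + 1)) ≠ 0 := mul_ne_zero ih (hx k)
    omega

theorem one_le_tot {σ : Type} [Fintype σ] [DecidableEq σ] (A : Matrix σ σ ℕ) (x : ℕ → σ)
    (hx : ∀ i, A (x i) (x (i + 1)) ≠ 0) (k : ℕ) : 1 ≤ tot (A ^ k) :=
  le_trans (Nat.one_le_iff_ne_zero.mpr (path A x hx k)) (le_tot _ _ _)

end MATx

open MATx in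
theorem mat (g : S_GEL) (i : S_IDEM) (b : S_BLK) : S_MAT := by
  intro n A ⟨x, hx⟩
  have hA : ∀ k, 1 ≤ tot (A ^ k) :=
    one_le_tot A (fun k : ℕ => x k) (fun k => by simpa using hx k)
  obtain ⟨p, hp, htr⟩ := i _ A
  have hB : ∀ k, 1 ≤ tot ((A ^ p) ^ k) := fun k => by rw [← pow_mul]; exact hA _
  obtain ⟨-, hlA⟩ := g _ A hA
  obtain ⟨h1B, hlB⟩ := g _ (A ^ p) hB
  have hpk : Tendsto (fun k : ℕ => p * k) atTop atTop :=
    tendsto_atTop_mono (fun k => Nat.le_mul_of_pos_left k hp) tendsto_id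
  have hl2 : Tendsto (fun k : ℕ => Real.log (tot ((A ^ p) ^ k)) / k) atTop
      (𝓝 (p * Real.log (sr A))) := by
    refine ((hlA.comp hpk).const_mul (p : ℝ)).congr fun k => ?_
    have hp' : (p : ℝ) ≠ 0 := by exact_mod_cast hp.ne'
    simp only [Function.comp, ← pow_mul, Nat.cast_mul]
    rcases Nat.eq_zero_or_pos k with rfl | hk
    · simp
    · have hk' : (k : ℝ) ≠ 0 := by exact_mod_cast hk.ne'
      field_simp
  have heq : Real.log (sr (A ^ p)) = p * Real.log (sr A) := tendsto_nhds_unique hlB hl2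
  obtain ⟨K, ⟨s, hs⟩, hpos, hsr⟩ := b _ (A ^ p) htr (by linarith)
  refine ⟨K, inferInstance, inferInstance, (A ^ p).submatrix Subtype.val Subtype.val, p,
    ⟨⟨s, hs⟩⟩, hp, fun a c => hpos _ a.2 _ c.2, ?_⟩
  have hC := (g K ((A ^ p).submatrix Subtype.val Subtype.val)
    (one_le_tot _ (fun _ => ⟨s, hs⟩) fun _ => (hpos s hs s hs).ne')).2
  rw [hsr, heq] at hC
  exact hC

end Pool.Agent.MP_29bdbb_an
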