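import Pool.Agent.MP_29bdbb_an.Spec

/-! Splitting labels. -/

namespace Pool.Agent.MP_29bdbb_an

open Finset Filter Topology

open Classical

namespace SPLx

variable {d : ℕ} {T : Type} [Fintype T] (m : T → ℕ)

/-- families of pairs are pairs of families -/
def e (d : ℕ) : (Σ c : Fin d → T, ∀ i, Fin (m (c i))) ≃ (Fin d → Σ τ, Fin (m τ)) :=
  ⟨fun x i => ⟨x.1 i, x.2 i⟩, fun c => ⟨fun i => (c i).1, fun i => (c i).2⟩, fun _ => rfl,
    fun _ => rfl⟩

theorem key (Q : (Fin d → T) → Prop) (N : (Σ τ, Fin (m τ)) → ℕ) :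
    ∑ c ∈ univ.filter (fun c : Fin d → Σ τ, Fin (m τ) => Q fun i => (c i).1), ∏ i, N (c i) =
      ∑ c ∈ univ.filter Q, ∏ i, ∑ k : Fin (m (c i)), N ⟨c i, k⟩ := by
  rw [sum_filter, sum_filter, ← (e m d).sum_comp, Fintype.sum_sigma]
  refine sum_congr rfl fun c _ => ?_
  rw [prod_univ_sum, Fintype.piFinset_univ]
  by_cases h : Q c
  · rw [if_pos h]
    exact sum_congr rfl fun k _ => if_pos h
  · rw [if_neg h]
    exact sum_eq_zero fun k _ => if_neg h

theorem surj {α : Type} (V : Finset α) {n : ℕ} (h0 : 0 < n) (h : n ≤ V.card) :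
    ∃ g : α → Fin n, ∀ k, ∃ a ∈ V, g a = k := by
  have : Nonempty (Fin n) := ⟨⟨0, h0⟩⟩
  obtain ⟨f⟩ := Function.Embedding.nonempty_of_card_le (α := Fin n) (β := V) (by simpa using h)
  exact ⟨Function.invFun fun k => (f k : α), fun k => ⟨f k, (f k).2,
    Function.leftInverse_invFun (Subtype.val_injective.comp f.injective) k⟩⟩

end SPLx

theorem spl : S_SPL := by
  intro d T _ R m h
  have a : ∀ τ, ∃ g : (Fin d → Σ τ, Fin (m τ)) → Fin (m τ), ∀ k,
      ∃ c ∈ univ.filter (fun c : Fin d → Σ τ, Fin (m τ) => R τ fun i => (c i).1), g c = k :=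
    fun τ => SPLx.surj _ (h τ).1 ((h τ).2.trans (le_of_eq (by
      simpa using (SPLx.key m (R τ) fun _ => 1).symm)))
  choose g hg using a
  refine ⟨fun l c => (R l.1 fun i => (c i).1) ∧ g l.1 c = l.2, fun l => ?_, fun N τ => ?_⟩
  · obtain ⟨c, hc, k⟩ := hg l.1 l.2
    exact ⟨c, (mem_filter.1 hc).2, k⟩
  · rw [← SPLx.key, ← sum_fiberwise (g := g τ)]
    refine sum_congr rfl fun k _ => sum_congr ?_ fun _ _ => rfl
    ext c
    simp

end Pool.Agent.MP_29bdbb_an
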