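import Pool.Agent.MP_29bdbb_an.Spec

/-! The rule that threads a path of the matrix through the tree. -/

set_option autoImplicit false
set_option linter.unusedSectionVars false

namespace Pool.Agent.MP_29bdbb_an

open Finset Filter Topology

open Classical

namespace SYSx

variable {σ : Type} [Fintype σ] [DecidableEq σ] {p d : ℕ}

theorem prod_pow (C : Matrix σ σ ℕ) (e : Fin d → ℕ) :
    (List.ofFn fun i => C ^ e i).prod = C ^ ∑ i, e i := by
  have h : ∀ l : List ℕ, (l.map (C ^ ·)).prod = C ^ l.sum := fun l => by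
    induction l with
    | nil => simp
    | cons a l ih => simp [ih, pow_add]
  rw [← List.sum_ofFn, ← h, List.map_ofFn]
  rfl

theorem step {C : Matrix σ σ ℕ} (h : ∀ s t, 0 < C s t) (u : ℕ) (s t : σ) :
    (C ^ u) s t ≤ (C ^ (u + 1)) s t := by
  rw [pow_succ, Matrix.mul_apply]
  exact (Nat.le_mul_of_pos_right _ (h t t)).trans
    (single_le_sum (f := fun j => (C ^ u) s j * C j t) (fun _ _ => Nat.zero_le _) (mem_univ t))

theorem mono {C : Matrix σ σ ℕ} (h : ∀ s t, 0 < C s t) (s t : σ) :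
    Monotone fun u => (C ^ u) s t := monotone_nat_of_le_succ fun u => step h u s t

/-- kind, start, end, middle, and a path from the start to the middle -/
abbrev Lb (W : Fin p → Matrix σ σ ℕ) : Type :=
  Σ q : Fin p × σ × σ, Σ s : σ, Fin (W q.1 q.2.1 s)

variable (W : Fin p → Matrix σ σ ℕ)

/-- the allowed children -/
noncomputable def Ch (kd : Fin d → Fin p) (s t : σ) : Finset (Fin d → Lb W) :=
  (univ.filter fun y : Fin (d + 1) → σ => y 0 = s ∧ y (Fin.last d) = t).biUnion fun y =>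
    Fintype.piFinset fun i => univ.filter fun τ : Lb W => τ.1 = (kd i, y i.castSucc, y i.succ)

variable {W} {G : Fin p → Matrix σ σ ℕ} {F : Lb W → ℕ}

theorem fib0 (hF : ∀ τ, F τ = G τ.1.1 τ.2.1 τ.1.2.2) (q : Fin p × σ × σ) :
    ∑ b, F ⟨q, b⟩ = (W q.1 * G q.1) q.2.1 q.2.2 := by
  rw [Fintype.sum_sigma, Matrix.mul_apply]
  exact sum_congr rfl fun s _ => by simp [hF]

theorem fib (hF : ∀ τ, F τ = G τ.1.1 τ.2.1 τ.1.2.2) (q : Fin p × σ × σ) :
    ∑ τ ∈ univ.filter fun τ : Lb W => τ.1 = q, F τ = (W q.1 * G q.1) q.2.1 q.2.2 := by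
  rw [sum_filter, Fintype.sum_sigma, sum_eq_single q, ← fib0 hF]
  · simp
  · intro r _ h
    simp [h]
  · simp

theorem key (hc : S_CHAIN) (hF : ∀ τ, F τ = G τ.1.1 τ.2.1 τ.1.2.2) (kd : Fin d → Fin p)
    (s t : σ) : ∑ c ∈ Ch W kd s t, ∏ i, F (c i) =
      (List.ofFn fun i => W (kd i) * G (kd i)).prod s t := by
  rw [hc, Ch, sum_biUnion]
  · refine sum_congr (by congr) fun y _ => ?_
    rw [← prod_univ_sum]
    exact prod_congr rfl fun i _ => fib hF _
  · intro y hy z hz h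
    refine disjoint_left.2 fun c h1 h2 => h (funext fun j => ?_)
    simp only [Fintype.mem_piFinset, mem_filter, mem_univ, true_and, coe_filter,
      Set.mem_ofPred_eq] at h1 h2 hy hz
    refine Fin.lastCases (hy.2.trans hz.2.symm) (fun i => ?_) j
    exact congrArg (fun q => q.2.1) ((h1 i).symm.trans (h2 i))

theorem total (hF : ∀ τ, F τ = G τ.1.1 τ.2.1 τ.1.2.2) :
    ∑ τ, F τ = ∑ k, tot (W k * G k) := by
  rw [Fintype.sum_sigma, Fintype.sum_prod_type]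
  refine sum_congr rfl fun k _ => ?_
  rw [Fintype.sum_prod_type, tot]
  exact sum_congr rfl fun x _ => sum_congr rfl fun t _ => fib0 hF _

end SYSx

open SYSx in
theorem sys (hc : S_CHAIN) (he : S_EX) (hs : S_SPL) : S_SYS := by
  intro d p a σ _ _ _ C d0 p0 hC
  let W : Fin p → Matrix σ σ ℕ := fun k => C ^ (a * cnt d p 0 k)
  let kd : Fin p → Fin d → Fin p := fun k i => ⟨(d * k + i) % p, Nat.mod_lt _ p0⟩
  let m : Lb W → ℕ := fun τ => (C ^ d) τ.2.1 τ.1.2.2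
  let R : Lb W → (Fin d → Lb W) → Prop := fun τ c => c ∈ Ch W (kd τ.1.1) τ.2.1 τ.1.2.2
  have hR : ∀ τ, univ.filter (R τ) = Ch W (kd τ.1.1) τ.2.1 τ.1.2.2 := fun τ => by
    ext c
    simp [R]
  have st : ∀ (g : Fin p → ℕ) (n : ℕ) (F : Lb W → ℕ),
      (∀ k : Fin p, ex d p a n k = a * cnt d p 0 k + g k) →
      (∀ τ, F τ = (C ^ g τ.1.1) τ.2.1 τ.1.2.2) → ∀ τ : Lb W,
      ∑ c ∈ univ.filter (R τ), ∏ i, F (c i) =
        (C ^ ∑ i : Fin d, ex d p a n ((d * τ.1.1 + i) % p)) τ.2.1 τ.1.2.2 := by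
    intro g n F hg hF τ
    rw [hR, key (G := fun k => C ^ g k) hc hF, ← SYSx.prod_pow]
    exact congrArg (fun Z : Fin d → Matrix σ σ ℕ => (List.ofFn Z).prod τ.2.1 τ.1.2.2)
      (funext fun i => (pow_add _ _ _).symm.trans (congrArg (C ^ ·) (hg (kd τ.1.1 i)).symm))
  have e0 : ∀ k, ex d p a 0 k = a * cnt d p 0 k + d := fun k => (he d p a k d0 p0).1
  have m0 : ∀ τ, 0 < m τ := fun τ =>
    lt_of_lt_of_le (by simpa using hC _ _) (mono hC τ.2.1 τ.1.2.2 (show 1 ≤ d from d0))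
  obtain ⟨Ok, o1, o2⟩ := hs d (Lb W) R m fun τ => ⟨m0 τ, by
    rw [st (fun _ => d) 0 m (fun k => e0 k) (fun _ => rfl)]
    refine mono hC _ _ ?_
    refine le_trans ?_ (single_le_sum (f := fun i : Fin d => ex d p a 0 ((d * τ.1.1 + i) % p))
      (fun _ _ => Nat.zero_le _) (mem_univ ⟨0, d0⟩))
    rw [e0]
    omega⟩
  obtain ⟨x⟩ := ‹Nonempty σ›
  have w0 : 0 < W ⟨0, p0⟩ x x :=
    lt_of_lt_of_le (by simp) (mono hC x x (Nat.zero_le _))
  refine ⟨Σ τ, Fin (m τ), inferInstance, Ok,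
    ⟨⟨⟨(⟨0, p0⟩, x, x), x, ⟨0, w0⟩⟩, ⟨0, m0 _⟩⟩⟩, o1, fun N n0 n1 n => ?_⟩
  have ind : ∀ n, ∃ g : Fin p → ℕ, (∀ k : Fin p, ex d p a n k = a * cnt d p 0 k + g k) ∧
      ∀ τ : Lb W, ∑ k : Fin (m τ), N n ⟨τ, k⟩ = (C ^ g τ.1.1) τ.2.1 τ.1.2.2 := by
    intro n
    induction n with
    | zero => exact ⟨fun _ => d, fun k => e0 k, fun τ => by simp [n0, m]⟩
    | succ n ih =>
      obtain ⟨g, g1, g2⟩ := ih
      refine ⟨fun k => ∑ i : Fin d, ex d p a n ((d * k + i) % p),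
        fun k => (he d p a k d0 p0).2 n, fun τ => ?_⟩
      rw [← st g n _ g1 g2 τ, ← o2]
      exact sum_congr rfl fun k _ => n1 n _
  obtain ⟨g, g1, g2⟩ := ind n
  rw [Fintype.sum_sigma, total (G := fun k => C ^ g k) g2,
    ← Fin.sum_univ_eq_sum_range (fun κ => tot (C ^ ex d p a n κ))]
  exact sum_congr rfl fun k _ => by rw [g1, pow_add]

end Pool.Agent.MP_29bdbb_an
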