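import Pool.Agent.MP_29bdbb_an.Main
import Pool.Agent.MP_29bdbb_an.SYS
import Pool.Agent.MP_29bdbb_an.DLY
import Pool.Agent.MP_29bdbb_an.CNT
import Pool.Agent.MP_29bdbb_an.BLK
import Pool.Agent.MP_29bdbb_an.SPL
import Pool.Agent.MP_29bdbb_an.ASY
import Pool.Agent.MP_29bdbb_an.GEL
import Pool.Agent.MP_29bdbb_an.MAT
import Pool.Agent.MP_29bdbb_an.LIM
import Pool.Agent.MP_29bdbb_an.EX
import Pool.Agent.MP_29bdbb_an.IDEM
import Pool.Agent.MP_29bdbb_an.CHAIN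
import Pool.Agent.MP_29bdbb_an.CARD

/-! All the steps together. -/

namespace Pool.Agent.MP_29bdbb_an

open Filter Topology

theorem mainAll (d g : ℕ) (A : Matrix (Fin g) (Fin g) ℕ) (hd : 2 ≤ d)
    (hA : ∃ x : ℤ → Fin g, ∀ i, A (x i) (x (i + 1)) ≠ 0) :
    ∃ α : Type, Finite α ∧ ∃ (m : ℕ) (F : Finset (Del d (m + 1) → α)),
      (TS (F : Set (Del d (m + 1) → α))).Nonempty ∧
      Tendsto (fun n : ℕ => Real.log (Bn (TS (F : Set (Del d (m + 1) → α))) n).ncard /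
        Nat.card (Del d n)) atTop (𝓝 (Real.log (sr A))) :=
  mainOf (mat gel idem blkS) cntS dly (sys chain exS spl) asy cardS limS d g A hd hA

end Pool.Agent.MP_29bdbb_an
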