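import Pool.Agent.MP_29bdbb_an.Spec

/-! Row CHAIN: an entry of a product of matrices as a sum over chains. -/

namespace Pool.Agent.MP_29bdbb_an

open Finset Filter Topology

open Classical

namespace CHAINx

theorem sum_cons {σ : Type} [Fintype σ] (n : ℕ) (f : (Fin (n + 1) → σ) → ℕ) :
    ∑ x, f x = ∑ a : σ, ∑ y : Fin n → σ, f (Fin.cons a y) := by
  rw [← (Fin.consEquiv fun _ : Fin (n + 1) => σ).sum_comp, Fintype.sum_prod_type]
  rfl

theorem aux {σ : Type} [Fintype σ] [DecidableEq σ] (d : ℕ) :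
    ∀ (Z : Fin d → Matrix σ σ ℕ) (s t : σ), (List.ofFn Z).prod s t =
      ∑ x : Fin (d + 1) → σ, (if x 0 = s then 1 else 0) * ((if x (Fin.last d) = t then 1 else 0) *
        ∏ i, Z i (x i.castSucc) (x i.succ)) := by
  induction d with
  | zero =>
    intro Z s t
    rw [sum_cons]
    simp [Matrix.one_apply, eq_comm]
  | succ d ih =>
    intro Z s t
    rw [List.ofFn_succ, List.prod_cons, Matrix.mul_apply, sum_cons]
    simp only [ih, Fin.cons_zero, Fin.prod_univ_succ, ← Fin.succ_last, Fin.cons_succ,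
      Fin.castSucc_zero, ← Fin.succ_castSucc, mul_sum]
    rw [sum_comm]
    conv_rhs => rw [sum_comm]
    refine sum_congr rfl fun y _ => ?_
    by_cases h : y (Fin.last d) = t <;> simp [h]

end CHAINx

theorem chain : S_CHAIN := by
  intro σ _ _ d Z s t
  rw [CHAINx.aux, sum_filter]
  refine sum_congr rfl fun x _ => ?_
  by_cases h1 : x 0 = s <;> by_cases h2 : x (Fin.last d) = t <;> simp [h1, h2]

end Pool.Agent.MP_29bdbb_an
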