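import Mathlib

/-! Tree-shifts of finite type on the `d`-ary tree and their blocks. -/

namespace Pool.Agent.MP_29bdbb_an

/-- The nodes of depth less than `n` of the `d`-ary tree. -/
abbrev Del (d n : ℕ) : Type := {w : List (Fin d) // w.length < n}

/-- The `n`-block of the labelled tree `t` at the node `v`. -/
def blk {d : ℕ} {α : Type} (n : ℕ) (t : List (Fin d) → α) (v : List (Fin d)) : Del d n → α :=
  fun w => t (v ++ w.1)

/-- The labelled trees in which no block of `F` occurs at any node. -/
def TS {d m : ℕ} {α : Type} (F : Set (Del d m → α)) : Set (List (Fin d) → α) :=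
  {t | ∀ v, blk m t v ∉ F}

/-- The `n`-blocks that occur in elements of `X`. -/
def Bn {d : ℕ} {α : Type} (X : Set (List (Fin d) → α)) (n : ℕ) : Set (Del d n → α) :=
  {b | ∃ t ∈ X, ∃ v, b = blk n t v}

end Pool.Agent.MP_29bdbb_an
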