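import Pool.Agent.MP_29bdbb_an.Spec

/-! The assembly of the steps. -/

namespace Pool.Agent.MP_29bdbb_an

open Finset Filter Topology

open Classical

theorem tot_pos {σ : Type} [Fintype σ] [DecidableEq σ] [Nonempty σ] (C : Matrix σ σ ℕ)
    (hC : ∀ s t, 0 < C s t) (k : ℕ) : 1 ≤ tot (C ^ k) := by
  obtain ⟨s⟩ := ‹Nonempty σ›
  have h : 0 < (C ^ k) s s := by
    induction k with
    | zero => simp
    | succ k ih =>
      rw [pow_succ, Matrix.mul_apply]
      exact lt_of_lt_of_le (Nat.mul_pos ih (hC s s))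
        (single_le_sum (f := fun j => (C ^ k) s j * C j s) (fun _ _ => Nat.zero_le _) (mem_univ s))
  exact le_trans h (le_trans
    (single_le_sum (f := fun t => (C ^ k) s t) (fun _ _ => Nat.zero_le _) (mem_univ s))
    (single_le_sum (f := fun s => ∑ t, (C ^ k) s t) (fun _ _ => Nat.zero_le _) (mem_univ s)))

theorem mainOf (mat : S_MAT) (cn : S_CNT) (dl : S_DLY) (sy : S_SYS) (as : S_ASY) (ca : S_CARD)
    (li : S_LIM) (d g : ℕ) (A : Matrix (Fin g) (Fin g) ℕ) (hd : 2 ≤ d)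
    (hA : ∃ x : ℤ → Fin g, ∀ i, A (x i) (x (i + 1)) ≠ 0) :
    ∃ α : Type, Finite α ∧ ∃ (m : ℕ) (F : Finset (Del d (m + 1) → α)),
      (TS (F : Set (Del d (m + 1) → α))).Nonempty ∧
      Tendsto (fun n : ℕ => Real.log (Bn (TS (F : Set (Del d (m + 1) → α))) n).ncard /
        Nat.card (Del d n)) atTop (𝓝 (Real.log (sr A))) := by
  obtain ⟨σ, _, _, C, p, hσ, hp, hC, hT⟩ := mat g A hA
  obtain ⟨r, hr⟩ : ∃ r, p * (d - 1) ≤ d ^ r := ⟨_, (Nat.lt_pow_self (by omega)).le⟩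
  obtain ⟨a, ha⟩ : ∃ a, a + p * (d - 1) = d ^ r := ⟨d ^ r - p * (d - 1), by omega⟩
  obtain ⟨Λ, _, Ok, hΛ, hex, hN⟩ := sy d p a σ C (by omega) hp hC
  obtain ⟨c1, c2, c3⟩ := cn d Λ Ok hex
  obtain ⟨F, hF⟩ := dl d r Λ Ok (by omega)
  have h1 : ∀ n, NT Ok (n + 1) = ∑ κ ∈ range p, tot (C ^ ex d p a n κ) := fun n =>
    (c3 n).trans (hN (fun n l => NN Ok (n + 1) l) c1 c2 n)
  have hD : Tendsto (fun n : ℕ => ∑ j ∈ range (n + 1 + r), d ^ j) atTop atTop := by
    refine tendsto_atTop_mono (fun n => ?_) tendsto_id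
    calc n ≤ ∑ _j ∈ range (n + 1 + r), 1 := by simp; omega
      _ ≤ _ := sum_le_sum fun j _ => Nat.one_le_pow _ _ (by omega)
  have hp' : (0 : ℝ) < p := by exact_mod_cast hp
  have h2 := li p (Fintype.card Λ ^ r) (fun k => tot (C ^ k))
    (fun n => ∑ j ∈ range (n + 1 + r), d ^ j) (fun n => (Bn (TS F) (n + 1 + r)).ncard)
    (fun n κ => ex d p a n κ) (p * Real.log (sr A)) (1 / p) hp
    (Nat.one_le_pow _ _ Fintype.card_pos) (by positivity) (tot_pos C hC) hT hD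
    (fun κ => as d p r a κ hd hp ha) fun n => by rw [← h1]; exact hF (n + 1)
  rw [← mul_assoc, one_div_mul_cancel hp'.ne', one_mul] at h2
  refine ⟨Λ, inferInstance, r + 1, (Set.toFinite F).toFinset, ?_, ?_⟩
  · rw [Set.Finite.coe_toFinset]
    have h3 : 0 < (Bn (TS F) (0 + 1 + r)).ncard := by
      refine lt_of_lt_of_le ?_ (hF (0 + 1)).1
      rw [h1]
      exact lt_of_lt_of_le (tot_pos C hC _) (single_le_sum
        (f := fun κ => tot (C ^ ex d p a 0 κ)) (fun _ _ => Nat.zero_le _) (mem_range.2 hp))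
    obtain ⟨b, t, ht, -⟩ := Set.nonempty_of_ncard_ne_zero h3.ne'
    exact ⟨t, ht⟩
  · rw [Set.Finite.coe_toFinset, ← tendsto_add_atTop_iff_nat (1 + r)]
    refine h2.congr fun n => ?_
    rw [ca, ← add_assoc]

end Pool.Agent.MP_29bdbb_an
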