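import Pool.Agent.MP_29bdbb_an.Defs

/-! Realising the entropy of a matrix shift by a tree-shift of finite type: the steps. -/

namespace Pool.Agent.MP_29bdbb_an

open Finset Filter Topology

noncomputable section

open Classical

instance finDel (d n : ℕ) : Finite (Del d n) := (List.finite_length_lt (Fin d) n).to_subtype

/-- the sum of all entries -/
def tot {σ : Type} [Fintype σ] (C : Matrix σ σ ℕ) : ℕ := ∑ s, ∑ t, C s t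

/-- the spectral radius -/
def sr {σ : Type} [Fintype σ] [DecidableEq σ] (C : Matrix σ σ ℕ) : ℝ :=
  (spectralRadius ℂ (C.map (Nat.cast : ℕ → ℂ))).toReal

/-- the trees of a rule between a label and the labels of the children -/
def YY {d : ℕ} {Λ : Type} (Ok : Λ → (Fin d → Λ) → Prop) : Set (List (Fin d) → Λ) :=
  {u | ∀ v, Ok (u v) fun i => u (v ++ [i])}

/-- the number of `n`-blocks at the root with root label `l` -/
def NN {d : ℕ} {Λ : Type} (Ok : Λ → (Fin d → Λ) → Prop) (n : ℕ) (l : Λ) : ℕ :=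
  Set.ncard {b : Del d n → Λ | ∃ u ∈ YY Ok, u [] = l ∧ b = blk n u []}

/-- the number of `n`-blocks at the root -/
def NT {d : ℕ} {Λ : Type} (Ok : Λ → (Fin d → Λ) → Prop) (n : ℕ) : ℕ :=
  Set.ncard {b : Del d n → Λ | ∃ u ∈ YY Ok, b = blk n u []}

/-- the number of multiples of `p` below `x` -/
def up (p x : ℕ) : ℕ := (x + p - 1) / p

/-- the number of multiples of `p` among the addresses of depth `j` below `κ` -/
def cnt (d p j κ : ℕ) : ℕ := up p (d ^ j * (κ + 1)) - up p (d ^ j * κ)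

/-- the length of the path threaded through a block of depth `n + 1` -/
def ex (d p a n κ : ℕ) : ℕ := d ^ (n + 1) + a * ∑ j ∈ range (n + 1), cnt d p j κ

def S_GEL : Prop := ∀ (σ : Type) [Fintype σ] [DecidableEq σ] (C : Matrix σ σ ℕ),
  (∀ k, 1 ≤ tot (C ^ k)) → 1 ≤ sr C ∧
    Tendsto (fun k : ℕ => Real.log (tot (C ^ k)) / k) atTop (𝓝 (Real.log (sr C)))

def S_IDEM : Prop := ∀ (σ : Type) [Fintype σ] [DecidableEq σ] (A : Matrix σ σ ℕ),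
  ∃ p, 0 < p ∧ ∀ i j k, (A ^ p) i j ≠ 0 → (A ^ p) j k ≠ 0 → (A ^ p) i k ≠ 0

def S_BLK : Prop := ∀ (σ : Type) [Fintype σ] [DecidableEq σ] (B : Matrix σ σ ℕ),
  (∀ i j k, B i j ≠ 0 → B j k ≠ 0 → B i k ≠ 0) → 0 < sr B →
  ∃ K : Finset σ, K.Nonempty ∧ (∀ i ∈ K, ∀ j ∈ K, 0 < B i j) ∧
    sr (B.submatrix (Subtype.val : K → σ) Subtype.val) = sr B

def S_MAT : Prop := ∀ (g : ℕ) (A : Matrix (Fin g) (Fin g) ℕ),
  (∃ x : ℤ → Fin g, ∀ i, A (x i) (x (i + 1)) ≠ 0) →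
  ∃ (σ : Type) (_ : Fintype σ) (_ : DecidableEq σ) (C : Matrix σ σ ℕ) (p : ℕ), Nonempty σ ∧
    0 < p ∧ (∀ s t, 0 < C s t) ∧
    Tendsto (fun k : ℕ => Real.log (tot (C ^ k)) / k) atTop (𝓝 (p * Real.log (sr A)))

def S_CNT : Prop := ∀ (d : ℕ) (Λ : Type) [Fintype Λ] (Ok : Λ → (Fin d → Λ) → Prop),
  (∀ l, ∃ c, Ok l c) → (∀ l, NN Ok 1 l = 1) ∧
    (∀ n l, NN Ok (n + 2) l = ∑ c ∈ univ.filter (Ok l), ∏ i, NN Ok (n + 1) (c i)) ∧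
    ∀ n, NT Ok (n + 1) = ∑ l, NN Ok (n + 1) l

def S_DLY : Prop := ∀ (d r : ℕ) (Λ : Type) [Fintype Λ] [Nonempty Λ]
  (Ok : Λ → (Fin d → Λ) → Prop), 0 < d → ∃ F : Set (Del d (r + 2) → Λ), ∀ n,
    NT Ok n ≤ (Bn (TS F) (n + r)).ncard ∧
      (Bn (TS F) (n + r)).ncard ≤ Fintype.card Λ ^ r * NT Ok n

def S_CHAIN : Prop := ∀ (σ : Type) [Fintype σ] [DecidableEq σ] (d : ℕ)
  (Z : Fin d → Matrix σ σ ℕ) (s t : σ), (List.ofFn Z).prod s t =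
    ∑ x ∈ univ.filter (fun x : Fin (d + 1) → σ => x 0 = s ∧ x (Fin.last d) = t),
      ∏ i, Z i (x i.castSucc) (x i.succ)

def S_EX : Prop := ∀ d p a κ : ℕ, 0 < d → 0 < p → ex d p a 0 κ = a * cnt d p 0 κ + d ∧
  ∀ n, ex d p a (n + 1) κ = a * cnt d p 0 κ + ∑ i : Fin d, ex d p a n ((d * κ + i) % p)

/-- splitting a label into `m τ` labels that share out the allowed children -/
def S_SPL : Prop := ∀ (d : ℕ) (T : Type) [Fintype T] (R : T → (Fin d → T) → Prop) (m : T → ℕ),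
  (∀ τ, 0 < m τ ∧ m τ ≤ ∑ c ∈ univ.filter (R τ), ∏ i, m (c i)) →
  ∃ Ok : (Σ τ, Fin (m τ)) → (Fin d → Σ τ, Fin (m τ)) → Prop, (∀ l, ∃ c, Ok l c) ∧
    ∀ (N : (Σ τ, Fin (m τ)) → ℕ) (τ : T),
      ∑ k : Fin (m τ), ∑ c ∈ univ.filter (Ok ⟨τ, k⟩), ∏ i, N (c i) =
        ∑ c ∈ univ.filter (R τ), ∏ i, ∑ k : Fin (m (c i)), N ⟨c i, k⟩

def S_SYS : Prop := ∀ (d p a : ℕ) (σ : Type) [Fintype σ] [DecidableEq σ] [Nonempty σ]
  (C : Matrix σ σ ℕ), 0 < d → 0 < p → (∀ s t, 0 < C s t) →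
  ∃ (Λ : Type) (_ : Fintype Λ) (Ok : Λ → (Fin d → Λ) → Prop), Nonempty Λ ∧ (∀ l, ∃ c, Ok l c) ∧
    ∀ N : ℕ → Λ → ℕ, (∀ l, N 0 l = 1) →
      (∀ n l, N (n + 1) l = ∑ c ∈ univ.filter (Ok l), ∏ i, N n (c i)) →
      ∀ n, ∑ l, N n l = ∑ κ ∈ range p, tot (C ^ ex d p a n κ)

def S_ASY : Prop := ∀ d p r a κ : ℕ, 2 ≤ d → 0 < p → a + p * (d - 1) = d ^ r →
  Tendsto (fun n : ℕ => (ex d p a n κ : ℝ) / (∑ j ∈ range (n + 1 + r), d ^ j : ℕ)) atTop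
    (𝓝 (1 / p))

def S_CARD : Prop := ∀ d n : ℕ, Nat.card (Del d n) = ∑ j ∈ range n, d ^ j

/-- from the exponents to the logarithm of the count -/
def S_LIM : Prop := ∀ (p M : ℕ) (T D b : ℕ → ℕ) (e : ℕ → ℕ → ℕ) (L θ : ℝ), 0 < p → 1 ≤ M →
  0 < θ → (∀ k, 1 ≤ T k) → Tendsto (fun k : ℕ => Real.log (T k) / k) atTop (𝓝 L) →
  Tendsto D atTop atTop → (∀ κ, Tendsto (fun n => (e n κ : ℝ) / D n) atTop (𝓝 θ)) →
  (∀ n, ∑ κ ∈ range p, T (e n κ) ≤ b n ∧ b n ≤ M * ∑ κ ∈ range p, T (e n κ)) →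
  Tendsto (fun n => Real.log (b n) / D n) atTop (𝓝 (θ * L))

def S_MAIN : Prop := ∀ (d g : ℕ) (A : Matrix (Fin g) (Fin g) ℕ), 2 ≤ d →
  (∃ x : ℤ → Fin g, ∀ i, A (x i) (x (i + 1)) ≠ 0) →
  ∃ α : Type, Finite α ∧ ∃ (m : ℕ) (F : Finset (Del d (m + 1) → α)),
    Tendsto (fun n : ℕ => Real.log (Bn (TS (F : Set (Del d (m + 1) → α))) n).ncard /
      Nat.card (Del d n)) atTop (𝓝 (Real.log (sr A)))

end

end Pool.Agent.MP_29bdbb_an
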